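import Pool.Agent.Y856.Sq.Stm
import Pool.Agent.H442R2.EHI.Dio

/-!
Diophantine counting for `2 p (k1 - k) k γ`.
-/

namespace Pool.Agent.Y353.SQ4

open Finset
open Pool.Agent.H442R2.EHI
open Pool.Agent.Y856.Sq

lemma nint_le (x : ℝ) (n : ℤ) : nint x ≤ |x - n| := round_le x n

lemma nint_sub_le (x y : ℝ) : nint (x - y) ≤ nint x + nint y := by
  have h := nint_le (x - y) (round x - round y)
  refine le_trans h ?_
  unfold nint
  have e1 : x - y - ((round x - round y : ℤ) : ℝ) = (x - round x) - (y - round y) := by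
    push_cast; ring
  rw [e1]
  exact abs_sub _ _

lemma nint_approx (α ε : ℝ) (q : ℕ) (hq : 1 ≤ q) (b : ℤ) (h : |α - (b : ℝ) / q| ≤ ε) :
    nint (q * α) ≤ q * ε := by
  have hq0 : (0 : ℝ) < q := by exact_mod_cast hq
  refine le_trans (nint_le _ b) ?_
  have e1 : (q : ℝ) * α - b = q * (α - (b : ℝ) / q) := by field_simp
  rw [e1, abs_mul, abs_of_pos hq0]
  exact mul_le_mul_of_nonneg_left h hq0.le

lemma dio2 (K Q : ℕ) (hQ : 1 ≤ Q) (hK : Q ≤ K) (Δ : ℝ) (hΔ0 : 0 < Δ) (hΔ : Δ * Q ≤ 1 / 8)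
    (α : ℝ) (T : Finset ℤ) (hT : ∀ g ∈ T, (-(K : ℤ) ≤ g ∧ g ≤ K) ∧ nint (g * α) ≤ Δ)
    (hc : 100 * (K : ℝ) < Q * T.card) :
    ∃ q ∈ Icc 1 Q, (∃ b : ℤ, |α - (b : ℝ) / q| ≤ Δ * Q / K) ∧ nint (q * α) ≤ Δ * Q ^ 2 / K := by
  have hQ0 : (0 : ℝ) < Q := by exact_mod_cast hQ
  have hK0 : (0 : ℝ) < K := by exact_mod_cast (le_trans hQ hK)
  have key : ∃ q ∈ Icc 1 Q, ∃ b : ℤ, |α - (b : ℝ) / q| ≤ Δ * Q / K := by
    by_contra hcon
    push Not at hcon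
    have h1 := dioph K Q hQ hK Δ hΔ0 hΔ α hcon
    have h2 : T.card ≤ nu K Δ α := by
      unfold nu
      apply Finset.card_le_card
      intro g hg
      rw [Finset.mem_filter, Finset.mem_Icc]
      exact hT g hg
    have h3 : (T.card : ℝ) ≤ nu K Δ α := by exact_mod_cast h2
    have h4 : (T.card : ℝ) ≤ 100 * K / Q := le_trans h3 h1
    rw [le_div_iff₀ hQ0] at h4
    linarith
  obtain ⟨q, hq, b, hb⟩ := key
  refine ⟨q, hq, ⟨b, hb⟩, ?_⟩
  rw [Finset.mem_Icc] at hq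
  have h1 := nint_approx α _ q hq.1 b hb
  refine le_trans h1 ?_
  have hqQ : (q : ℝ) ≤ Q := by exact_mod_cast hq.2
  calc (q : ℝ) * (Δ * Q / K) ≤ Q * (Δ * Q / K) :=
        mul_le_mul_of_nonneg_right hqQ (by positivity)
    _ = Δ * Q ^ 2 / K := by ring

/-- threshold counting -/
lemma thr {ι : Type*} (A : Finset ι) (w : ι → ℕ) (W t : ℝ) (hW : ∀ i ∈ A, (w i : ℝ) ≤ W)
    (ht : 0 ≤ t) :
    ∑ i ∈ A, (w i : ℝ) ≤ (A.filter (fun i => t ≤ w i)).card * W + A.card * t := by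
  rw [← Finset.sum_filter_add_sum_filter_not A (fun i => t ≤ (w i : ℝ))]
  apply add_le_add
  · have h := Finset.sum_le_card_nsmul (A.filter (fun i => t ≤ (w i : ℝ))) (fun i => (w i : ℝ)) W
      (fun i hi => hW i (Finset.mem_filter.1 hi).1)
    rw [nsmul_eq_mul] at h
    exact h
  · have h := Finset.sum_le_card_nsmul (A.filter (fun i => ¬ t ≤ (w i : ℝ)))
      (fun i => (w i : ℝ)) t (fun i hi => (not_le.1 (Finset.mem_filter.1 hi).2).le)
    rw [nsmul_eq_mul] at h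
    refine le_trans h (mul_le_mul_of_nonneg_right ?_ ht)
    exact_mod_cast Finset.card_le_card (Finset.filter_subset _ _)

lemma pick {ι : Type*} (A : Finset ι) (f : ι → ℕ) (Q : ℕ) (hQ : 1 ≤ Q)
    (hf : ∀ i ∈ A, f i ∈ Icc 1 Q) :
    ∃ q ∈ Icc 1 Q, A.card ≤ Q * (A.filter (fun i => f i = q)).card := by
  by_contra hcon
  push Not at hcon
  have h1 : A.card = ∑ q ∈ Icc 1 Q, (A.filter (fun i => f i = q)).card :=
    Finset.card_eq_sum_card_fiberwise hf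
  have h2 : ∑ q ∈ Icc 1 Q, Q * (A.filter (fun i => f i = q)).card < ∑ _q ∈ Icc 1 Q, A.card := by
    apply Finset.sum_lt_sum_of_nonempty
    · exact ⟨1, Finset.mem_Icc.2 ⟨le_refl _, hQ⟩⟩
    · exact hcon
  rw [← Finset.mul_sum, ← h1, Finset.sum_const, Nat.card_Icc] at h2
  simp at h2

lemma step1 (M K1 K P k1 : ℕ) (δ γ : ℝ) (hM : 2 ≤ M) (hP : M ^ 9 ≤ P) (hδ : 0 < δ)
    (hδM : δ * (M : ℝ) ^ 12 ≤ 1)
    (hS : (K : ℝ) * P ≤ M * ((((Ioc K1 K) ×ˢ (Icc 1 P)).filter (fun z : ℕ × ℕ =>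
      nint (2 * (z.2 : ℝ) * ((k1 : ℝ) - z.1) * z.1 * γ) ≤ δ)).card : ℝ)) :
    ∃ q1 ∈ Icc 1 (M ^ 9), ∃ G : Finset ℕ, G ⊆ Ioc K1 K ∧ (K : ℝ) ≤ (M : ℝ) ^ 11 * G.card ∧
      ∀ k ∈ G, nint (q1 * (2 * ((k1 : ℝ) - k) * k * γ)) ≤ δ * (M : ℝ) ^ 18 / P := by
  have hMR : (2 : ℝ) ≤ M := by exact_mod_cast hM
  have hM0 : (0 : ℝ) < M := by linarith
  have hM9 : 1 ≤ M ^ 9 := Nat.one_le_pow _ _ (by omega)
  have hP1 : 1 ≤ P := le_trans hM9 hP
  have hP0 : (0 : ℝ) < P := by exact_mod_cast hP1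
  set s : ℕ → ℕ := fun k => ((Icc 1 P).filter (fun p : ℕ =>
    nint (2 * (p : ℝ) * ((k1 : ℝ) - k) * k * γ) ≤ δ)).card with hs
  have hcard : (((Ioc K1 K) ×ˢ (Icc 1 P)).filter (fun z : ℕ × ℕ =>
      nint (2 * (z.2 : ℝ) * ((k1 : ℝ) - z.1) * z.1 * γ) ≤ δ)).card = ∑ k ∈ Ioc K1 K, s k := by
    rw [Finset.card_filter, Finset.sum_product]
    apply Finset.sum_congr rfl
    intro k _
    simp only [hs]
    rw [Finset.card_filter]
  rw [hcard] at hS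
  push_cast at hS
  have hsP : ∀ k, (s k : ℝ) ≤ P := by
    intro k
    have h1 : s k ≤ (Icc 1 P).card := Finset.card_le_card (Finset.filter_subset _ _)
    rw [Nat.card_Icc] at h1
    have h2 : s k ≤ P := by omega
    exact_mod_cast h2
  have h1 := thr (Ioc K1 K) s P (P / (2 * M)) (fun k _ => hsP k) (by positivity)
  set G1 := (Ioc K1 K).filter (fun k => (P : ℝ) / (2 * M) ≤ s k) with hG1def
  have hKc : ((Ioc K1 K).card : ℝ) ≤ K := by
    rw [Nat.card_Ioc]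
    exact_mod_cast Nat.sub_le K K1
  have hG1 : (K : ℝ) ≤ 2 * M * G1.card := by
    have h2 : (K : ℝ) * P ≤ M * (G1.card * P + K * (P / (2 * M))) := by
      refine le_trans hS (mul_le_mul_of_nonneg_left (le_trans h1 ?_) hM0.le)
      have := mul_le_mul_of_nonneg_right hKc (by positivity : (0 : ℝ) ≤ P / (2 * M))
      linarith
    have h3 : (M : ℝ) * (G1.card * P + K * (P / (2 * M))) = M * G1.card * P + K * P / 2 := by
      field_simp
    rw [h3] at h2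
    have h4 : (K : ℝ) * P ≤ (2 * M * G1.card) * P := by linarith
    exact le_of_mul_le_mul_right h4 hP0
  have hq : ∀ k, ∃ q, k ∈ G1 → (q ∈ Icc 1 (M ^ 9) ∧
      nint ((q : ℕ) * (2 * ((k1 : ℝ) - k) * k * γ)) ≤ δ * (M : ℝ) ^ 18 / P) := by
    intro k
    by_cases hk : k ∈ G1
    swap
    · exact ⟨0, fun h => absurd h hk⟩
    rw [hG1def, Finset.mem_filter] at hk
    obtain ⟨q, hq1, _, hq2⟩ := dio2 P (M ^ 9) hM9 hP δ hδ (by
        push_cast
        have h5 : δ * (M : ℝ) ^ 12 = δ * (M : ℝ) ^ 9 * (M : ℝ) ^ 3 := by ring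
        have h6 : (8 : ℝ) ≤ (M : ℝ) ^ 3 := by
          calc (8 : ℝ) = 2 ^ 3 := by norm_num
            _ ≤ (M : ℝ) ^ 3 := pow_le_pow_left₀ (by norm_num) hMR 3
        have h7 : 0 ≤ δ * (M : ℝ) ^ 9 := by positivity
        nlinarith [mul_le_mul_of_nonneg_left h6 h7]) (2 * ((k1 : ℝ) - k) * k * γ)
      (((Icc 1 P).filter (fun p : ℕ =>
        nint (2 * (p : ℝ) * ((k1 : ℝ) - k) * k * γ) ≤ δ)).image (fun p : ℕ => (p : ℤ))) (by
        intro g hg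
        rw [Finset.mem_image] at hg
        obtain ⟨p, hp, rfl⟩ := hg
        rw [Finset.mem_filter, Finset.mem_Icc] at hp
        refine ⟨⟨by omega, by exact_mod_cast hp.1.2⟩, ?_⟩
        have e1 : ((p : ℤ) : ℝ) * (2 * ((k1 : ℝ) - k) * k * γ) =
            2 * (p : ℝ) * ((k1 : ℝ) - k) * k * γ := by push_cast; ring
        rw [e1]
        exact hp.2) (by
        rw [Finset.card_image_of_injective _ (fun a b h => by exact_mod_cast h)]
        have h5 : (P : ℝ) / (2 * M) ≤ s k := hk.2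
        have h6 : (256 : ℝ) ≤ (M : ℝ) ^ 8 := by
          calc (256 : ℝ) = 2 ^ 8 := by norm_num
            _ ≤ (M : ℝ) ^ 8 := pow_le_pow_left₀ (by norm_num) hMR 8
        have h7 : (M : ℝ) ^ 9 * (P / (2 * M)) = (M : ℝ) ^ 8 * P / 2 := by
          field_simp
        push_cast
        calc 100 * (P : ℝ) < 256 * P / 2 := by linarith
          _ ≤ (M : ℝ) ^ 8 * P / 2 := by
            have := mul_le_mul_of_nonneg_right h6 hP0.le
            linarith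
          _ = (M : ℝ) ^ 9 * (P / (2 * M)) := h7.symm
          _ ≤ (M : ℝ) ^ 9 * s k := mul_le_mul_of_nonneg_left h5 (by positivity))
    refine ⟨q, fun _ => ⟨hq1, ?_⟩⟩
    refine le_trans hq2 (le_of_eq ?_)
    push_cast
    ring
  choose f hf using hq
  obtain ⟨q1, hq1, hc⟩ := pick G1 f (M ^ 9) hM9 (fun k hk => (hf k hk).1)
  refine ⟨q1, hq1, G1.filter (fun k => f k = q1), ?_, ?_, ?_⟩
  · intro k hk
    rw [Finset.mem_filter, hG1def, Finset.mem_filter] at hk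
    exact hk.1.1
  · have hc' : (G1.card : ℝ) ≤ (M : ℝ) ^ 9 * (G1.filter (fun k => f k = q1)).card := by
      exact_mod_cast hc
    calc (K : ℝ) ≤ 2 * M * G1.card := hG1
      _ ≤ 2 * M * ((M : ℝ) ^ 9 * (G1.filter (fun k => f k = q1)).card) :=
        mul_le_mul_of_nonneg_left hc' (by positivity)
      _ = 2 * ((M : ℝ) ^ 10 * (G1.filter (fun k => f k = q1)).card) := by ring
      _ ≤ M * ((M : ℝ) ^ 10 * (G1.filter (fun k => f k = q1)).card) :=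
        mul_le_mul_of_nonneg_right hMR (by positivity)
      _ = (M : ℝ) ^ 11 * (G1.filter (fun k => f k = q1)).card := by ring
  · intro k hk
    rw [Finset.mem_filter] at hk
    have := (hf k hk.1).2
    rw [hk.2] at this
    exact this

lemma step2 (M K k1 q1 : ℕ) (d γ : ℝ) (hM : 2 ≤ M) (G : Finset ℕ) (hG : G ⊆ Icc 1 K)
    (hGc : (K : ℝ) ≤ (M : ℝ) ^ 11 * G.card)
    (hd : ∀ k ∈ G, nint (q1 * (2 * ((k1 : ℝ) - k) * k * γ)) ≤ d) (hK : M ^ 32 ≤ K) (hd0 : 0 < d)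
    (hdM : 4 * d * (M : ℝ) ^ 32 ≤ 1 / 8) :
    ∃ H : Finset ℤ, (∀ h ∈ H, (-(K : ℤ) ≤ h ∧ h ≤ K) ∧ ∃ q ∈ Icc 1 (M ^ 32),
      nint ((q : ℕ) * (4 * q1 * h * γ)) ≤ 4 * d * (M : ℝ) ^ 64 / K) ∧
      (K : ℝ) ≤ 2 * (M : ℝ) ^ 22 * H.card := by
  classical
  have hMR : (2 : ℝ) ≤ M := by exact_mod_cast hM
  have hM0 : (0 : ℝ) < M := by linarith
  have hM9 : 1 ≤ M ^ 32 := Nat.one_le_pow _ _ (by omega)
  have hK1 : 1 ≤ K := le_trans hM9 hK
  have hK0 : (0 : ℝ) < K := by exact_mod_cast hK1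
  have hKR1 : (1 : ℝ) ≤ K := by exact_mod_cast hK1
  set Gz : Finset ℤ := G.image (fun k : ℕ => (k : ℤ)) with hGz
  have hGzc : Gz.card = G.card :=
    Finset.card_image_of_injective _ (fun a b h => by exact_mod_cast h)
  have hGz1 : ∀ k ∈ Gz, 1 ≤ k ∧ k ≤ K := by
    intro k hk
    rw [hGz, Finset.mem_image] at hk
    obtain ⟨k', hk', rfl⟩ := hk
    have := Finset.mem_Icc.1 (hG hk')
    exact ⟨by exact_mod_cast this.1, by exact_mod_cast this.2⟩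
  have hGz2 : ∀ k ∈ Gz, nint (q1 * (2 * ((k1 : ℝ) - k) * k * γ)) ≤ d := by
    intro k hk
    rw [hGz, Finset.mem_image] at hk
    obtain ⟨k', hk', rfl⟩ := hk
    have := hd k' hk'
    push_cast
    exact this
  set J : ℤ → Finset ℤ := fun h => Gz.filter (fun k => k + h ∈ Gz) with hJ
  have hsum : (G.card : ℝ) ^ 2 ≤ ∑ h ∈ Icc (-(K : ℤ)) K, ((J h).card : ℝ) := by
    have h1 : (Gz ×ˢ Gz).card = ∑ h ∈ Icc (-(K : ℤ)) K,
        ((Gz ×ˢ Gz).filter (fun z => z.1 - z.2 = h)).card := by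
      apply Finset.card_eq_sum_card_fiberwise
      intro z hz
      rw [Finset.mem_coe, Finset.mem_product] at hz
      have h2 := hGz1 _ hz.1
      have h3 := hGz1 _ hz.2
      rw [Finset.mem_coe, Finset.mem_Icc]
      show -(K : ℤ) ≤ z.1 - z.2 ∧ z.1 - z.2 ≤ K
      constructor <;> omega
    have h2 : ∀ h ∈ Icc (-(K : ℤ)) K, ((Gz ×ˢ Gz).filter (fun z => z.1 - z.2 = h)).card ≤
        (J h).card := by
      intro h _
      apply Finset.card_le_card_of_injOn (fun z => z.2)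
      · intro z hz
        rw [Finset.mem_coe, Finset.mem_filter, Finset.mem_product] at hz
        rw [Finset.mem_coe]
        show z.2 ∈ Gz.filter (fun k => k + h ∈ Gz)
        rw [Finset.mem_filter]
        refine ⟨hz.1.2, ?_⟩
        have : z.2 + h = z.1 := by linarith [hz.2]
        rw [this]
        exact hz.1.1
      · intro z hz z' hz' heq
        rw [Finset.mem_coe, Finset.mem_filter] at hz hz'
        have h3 : z.2 = z'.2 := heq
        have h4 : z.1 = z'.1 := by linarith [hz.2, hz'.2]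
        exact Prod.ext h4 h3
    have h3 : (Gz ×ˢ Gz).card ≤ ∑ h ∈ Icc (-(K : ℤ)) K, (J h).card := by
      rw [h1]
      exact Finset.sum_le_sum h2
    rw [Finset.card_product, hGzc] at h3
    have h4 : ((G.card * G.card : ℕ) : ℝ) ≤ ((∑ h ∈ Icc (-(K : ℤ)) K, (J h).card : ℕ) : ℝ) := by
      exact_mod_cast h3
    push_cast at h4
    calc (G.card : ℝ) ^ 2 = G.card * G.card := by ring
      _ ≤ _ := h4
  have hJK : ∀ h, ((J h).card : ℝ) ≤ K := by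
    intro h
    have h1 : (J h).card ≤ Gz.card := Finset.card_le_card (Finset.filter_subset _ _)
    have h2 : G.card ≤ (Icc 1 K).card := Finset.card_le_card hG
    rw [Nat.card_Icc] at h2
    have h3 : (J h).card ≤ K := by omega
    exact_mod_cast h3
  have h1 := thr (Icc (-(K : ℤ)) K) (fun h => (J h).card) K (K / (6 * (M : ℝ) ^ 22))
    (fun h _ => hJK h) (by positivity)
  set H := (Icc (-(K : ℤ)) K).filter (fun h => (K : ℝ) / (6 * (M : ℝ) ^ 22) ≤ (J h).card) with hH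
  have hIc : ((Icc (-(K : ℤ)) K).card : ℝ) ≤ 3 * K := by
    rw [Int.card_Icc]
    have e1 : ((K : ℤ) + 1 - -(K : ℤ)).toNat = 2 * K + 1 := by omega
    rw [e1]
    push_cast
    linarith
  have hHc : (K : ℝ) ≤ 2 * (M : ℝ) ^ 22 * H.card := by
    have h2 : (K : ℝ) ^ 2 ≤ (M : ℝ) ^ 22 * (G.card : ℝ) ^ 2 := by
      calc (K : ℝ) ^ 2 ≤ ((M : ℝ) ^ 11 * G.card) ^ 2 := pow_le_pow_left₀ hK0.le hGc 2
        _ = (M : ℝ) ^ 22 * (G.card : ℝ) ^ 2 := by ring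
    have h3 : (G.card : ℝ) ^ 2 ≤ H.card * K + 3 * K * (K / (6 * (M : ℝ) ^ 22)) := by
      refine le_trans hsum (le_trans h1 ?_)
      have := mul_le_mul_of_nonneg_right hIc (by positivity : (0 : ℝ) ≤ K / (6 * (M : ℝ) ^ 22))
      linarith
    have h4 : (K : ℝ) ^ 2 ≤ (M : ℝ) ^ 22 * (H.card * K + 3 * K * (K / (6 * (M : ℝ) ^ 22))) :=
      le_trans h2 (mul_le_mul_of_nonneg_left h3 (by positivity))
    have h5 : (M : ℝ) ^ 22 * (H.card * K + 3 * K * (K / (6 * (M : ℝ) ^ 22))) =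
        (M : ℝ) ^ 22 * H.card * K + K ^ 2 / 2 := by
      field_simp
      ring
    rw [h5] at h4
    have h6 : (K : ℝ) * K ≤ (2 * (M : ℝ) ^ 22 * H.card) * K := by nlinarith
    exact le_of_mul_le_mul_right h6 hK0
  refine ⟨H, ?_, hHc⟩
  intro h hh
  rw [hH, Finset.mem_filter, Finset.mem_Icc] at hh
  refine ⟨hh.1, ?_⟩
  have hJpos : 0 < (J h).card := by
    have : (0 : ℝ) < (J h).card := lt_of_lt_of_le (by positivity) hh.2
    exact_mod_cast this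
  obtain ⟨k0, hk0⟩ := Finset.card_pos.1 hJpos
  have hE : ∀ k ∈ J h, nint (q1 * (2 * γ * h * (k1 - h - 2 * k))) ≤ 2 * d := by
    intro k hk
    simp only [hJ, Finset.mem_filter] at hk
    have h2 := hGz2 k hk.1
    have h3 := hGz2 (k + h) hk.2
    have h4 := nint_sub_le (q1 * (2 * ((k1 : ℝ) - ((k + h : ℤ) : ℝ)) * ((k + h : ℤ) : ℝ) * γ))
      (q1 * (2 * ((k1 : ℝ) - k) * k * γ))
    have e1 : (q1 * (2 * ((k1 : ℝ) - ((k + h : ℤ) : ℝ)) * ((k + h : ℤ) : ℝ) * γ)) -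
      (q1 * (2 * ((k1 : ℝ) - k) * k * γ)) = q1 * (2 * γ * h * (k1 - h - 2 * k)) := by
      push_cast
      ring
    rw [e1] at h4
    linarith
  obtain ⟨q, hq1, _, hq2⟩ := dio2 K (M ^ 32) hM9 hK (4 * d) (by linarith) (by
      push_cast
      exact hdM) (4 * q1 * h * γ) ((J h).image (fun k => k - k0)) (by
      intro g hg
      rw [Finset.mem_image] at hg
      obtain ⟨k, hk, rfl⟩ := hg
      have hkG : k ∈ Gz := by
        simp only [hJ, Finset.mem_filter] at hk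
        exact hk.1
      have hk0G : k0 ∈ Gz := by
        simp only [hJ, Finset.mem_filter] at hk0
        exact hk0.1
      have h2 := hGz1 _ hkG
      have h3 := hGz1 _ hk0G
      refine ⟨⟨by omega, by omega⟩, ?_⟩
      have h4 := hE k hk
      have h5 := hE k0 hk0
      have h6 := nint_sub_le (q1 * (2 * γ * h * (k1 - h - 2 * k0)))
        (q1 * (2 * γ * h * (k1 - h - 2 * k)))
      have e1 : (q1 * (2 * γ * h * (k1 - h - 2 * k0))) - (q1 * (2 * γ * h * (k1 - h - 2 * k))) =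
          ((k - k0 : ℤ) : ℝ) * (4 * q1 * h * γ) := by
        push_cast
        ring
      rw [e1] at h6
      linarith) (by
      rw [Finset.card_image_of_injective _ (fun a b h => by
        have : a - k0 = b - k0 := h
        linarith)]
      have h5 := hh.2
      have h6 : (1024 : ℝ) ≤ (M : ℝ) ^ 10 := by
        calc (1024 : ℝ) = 2 ^ 10 := by norm_num
          _ ≤ (M : ℝ) ^ 10 := pow_le_pow_left₀ (by norm_num) hMR 10
      have h7 : (M : ℝ) ^ 32 * (K / (6 * (M : ℝ) ^ 22)) = (M : ℝ) ^ 10 * K / 6 := by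
        field_simp
      push_cast
      calc 100 * (K : ℝ) < 1024 * K / 6 := by linarith
        _ ≤ (M : ℝ) ^ 10 * K / 6 := by
          have := mul_le_mul_of_nonneg_right h6 hK0.le
          linarith
        _ = (M : ℝ) ^ 32 * (K / (6 * (M : ℝ) ^ 22)) := h7.symm
        _ ≤ (M : ℝ) ^ 32 * (J h).card := mul_le_mul_of_nonneg_left h5 (by positivity))
  refine ⟨q, hq1, le_trans hq2 (le_of_eq ?_)⟩
  push_cast
  ring

lemma step3 (M K q1 : ℕ) (d γ : ℝ) (hM : 2 ≤ M) (H : Finset ℤ)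
    (hH : ∀ h ∈ H, (-(K : ℤ) ≤ h ∧ h ≤ K) ∧ ∃ q ∈ Icc 1 (M ^ 32),
      nint ((q : ℕ) * (4 * q1 * h * γ)) ≤ 4 * d * (M : ℝ) ^ 64 / K)
    (hHc : (K : ℝ) ≤ 2 * (M : ℝ) ^ 22 * H.card) (hK : M ^ 62 ≤ K) (hd0 : 0 < d)
    (hdM : 4 * d * (M : ℝ) ^ 126 ≤ 1 / 8) :
    ∃ q2 ∈ Icc 1 (M ^ 32), ∃ q3 ∈ Icc 1 (M ^ 62), ∃ b : ℤ,
      |4 * q1 * (q2 : ℕ) * γ - (b : ℝ) / (q3 : ℕ)| ≤ 4 * d * (M : ℝ) ^ 126 / (K : ℝ) ^ 2 := by
  classical
  have hMR : (2 : ℝ) ≤ M := by exact_mod_cast hM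
  have hM0 : (0 : ℝ) < M := by linarith
  have hM9 : 1 ≤ M ^ 32 := Nat.one_le_pow _ _ (by omega)
  have hM62 : 1 ≤ M ^ 62 := Nat.one_le_pow _ _ (by omega)
  have hK1 : 1 ≤ K := le_trans hM62 hK
  have hK0 : (0 : ℝ) < K := by exact_mod_cast hK1
  have hKR1 : (1 : ℝ) ≤ K := by exact_mod_cast hK1
  have hq : ∀ h, ∃ q, h ∈ H → (q ∈ Icc 1 (M ^ 32) ∧
      nint ((q : ℕ) * (4 * q1 * h * γ)) ≤ 4 * d * (M : ℝ) ^ 64 / K) := by
    intro h
    by_cases hh : h ∈ H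
    · obtain ⟨_, q, hq1, hq2⟩ := hH h hh
      exact ⟨q, fun _ => ⟨hq1, hq2⟩⟩
    · exact ⟨0, fun h' => absurd h' hh⟩
  choose f hf using hq
  obtain ⟨q2, hq2, hc⟩ := pick H f (M ^ 32) hM9 (fun k hk => (hf k hk).1)
  have hc' : (H.card : ℝ) ≤ (M : ℝ) ^ 32 * (H.filter (fun k => f k = q2)).card := by
    exact_mod_cast hc
  obtain ⟨q3, hq3, ⟨b, hb⟩, _⟩ := dio2 K (M ^ 62) hM62 hK (4 * d * (M : ℝ) ^ 64 / K)
    (by positivity) (by
      push_cast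
      calc 4 * d * (M : ℝ) ^ 64 / K * (M : ℝ) ^ 62 = 4 * d * (M : ℝ) ^ 126 / K := by ring
        _ ≤ 4 * d * (M : ℝ) ^ 126 := div_le_self (by positivity) hKR1
        _ ≤ 1 / 8 := hdM) (4 * q1 * (q2 : ℕ) * γ) (H.filter (fun k => f k = q2)) (by
      intro h hh
      rw [Finset.mem_filter] at hh
      refine ⟨(hH h hh.1).1, ?_⟩
      have h1 := (hf h hh.1).2
      rw [hh.2] at h1
      have e1 : (h : ℝ) * (4 * q1 * (q2 : ℕ) * γ) = (q2 : ℕ) * (4 * q1 * h * γ) := by ring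
      rw [e1]
      exact h1) (by
      have h6 : (256 : ℝ) ≤ (M : ℝ) ^ 8 := by
        calc (256 : ℝ) = 2 ^ 8 := by norm_num
          _ ≤ (M : ℝ) ^ 8 := pow_le_pow_left₀ (by norm_num) hMR 8
      have h7 : (K : ℝ) ≤ 2 * (M : ℝ) ^ 54 * (H.filter (fun k => f k = q2)).card := by
        calc (K : ℝ) ≤ 2 * (M : ℝ) ^ 22 * H.card := hHc
          _ ≤ 2 * (M : ℝ) ^ 22 * ((M : ℝ) ^ 32 * (H.filter (fun k => f k = q2)).card) :=
            mul_le_mul_of_nonneg_left hc' (by positivity)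
          _ = 2 * (M : ℝ) ^ 54 * (H.filter (fun k => f k = q2)).card := by ring
      push_cast
      calc 100 * (K : ℝ) < 256 * K / 2 := by linarith
        _ ≤ (M : ℝ) ^ 8 * K / 2 := by
          have := mul_le_mul_of_nonneg_right h6 hK0.le
          linarith
        _ ≤ (M : ℝ) ^ 8 * (2 * (M : ℝ) ^ 54 * (H.filter (fun k => f k = q2)).card) / 2 := by
          have := mul_le_mul_of_nonneg_left h7 (by positivity : (0 : ℝ) ≤ (M : ℝ) ^ 8)
          linarith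
        _ = (M : ℝ) ^ 62 * (H.filter (fun k => f k = q2)).card := by ring)
  refine ⟨q2, hq2, q3, hq3, b, le_trans hb (le_of_eq ?_)⟩
  push_cast
  field_simp

theorem t : S_dio := by
  refine ⟨150, ?_⟩
  intro M K1 K P k1 δ γ hM hMK hMP hδ hδM hk1 hK1K hS
  have hMR : (2 : ℝ) ≤ M := by exact_mod_cast hM
  have hM0 : (0 : ℝ) < M := by linarith
  have hM1 : (1 : ℝ) ≤ M := by linarith
  have hpow : ∀ n : ℕ, n ≤ 150 → M ^ n ≤ M ^ 150 := fun n hn =>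
    Nat.pow_le_pow_right (by omega) hn
  have hP1 : 1 ≤ P := le_trans (Nat.one_le_pow _ _ (by omega)) hMP
  have hP0 : (0 : ℝ) < P := by exact_mod_cast hP1
  have hPR1 : (1 : ℝ) ≤ P := by exact_mod_cast hP1
  have hK1' : 1 ≤ K := le_trans (Nat.one_le_pow _ _ (by omega)) hMK
  have hK0 : (0 : ℝ) < K := by exact_mod_cast hK1'
  have hδM' : 32 * (δ * (M : ℝ) ^ 144) ≤ 1 := by
    have h6 : (64 : ℝ) ≤ (M : ℝ) ^ 6 := by
      calc (64 : ℝ) = 2 ^ 6 := by norm_num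
        _ ≤ (M : ℝ) ^ 6 := pow_le_pow_left₀ (by norm_num) hMR 6
    have h7 : δ * (M : ℝ) ^ 150 = (M : ℝ) ^ 6 * (δ * (M : ℝ) ^ 144) := by ring
    have h8 : 64 * (δ * (M : ℝ) ^ 144) ≤ (M : ℝ) ^ 6 * (δ * (M : ℝ) ^ 144) :=
      mul_le_mul_of_nonneg_right h6 (by positivity)
    have h9 : 0 ≤ δ * (M : ℝ) ^ 144 := by positivity
    linarith
  have hdx : ∀ n : ℕ, n ≤ 126 → 4 * (δ * (M : ℝ) ^ 18 / P) * (M : ℝ) ^ n ≤ 1 / 8 := by
    intro n hn
    have h1 : δ * (M : ℝ) ^ 18 / P ≤ δ * (M : ℝ) ^ 18 := div_le_self (by positivity) hPR1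
    have h2 : (M : ℝ) ^ n ≤ (M : ℝ) ^ 126 := pow_le_pow_right₀ hM1 hn
    have h3 : (δ * (M : ℝ) ^ 18 / P) * (M : ℝ) ^ n ≤ (δ * (M : ℝ) ^ 18) * (M : ℝ) ^ 126 :=
      mul_le_mul h1 h2 (by positivity) (by positivity)
    have h4 : (δ * (M : ℝ) ^ 18) * (M : ℝ) ^ 126 = δ * (M : ℝ) ^ 144 := by ring
    linarith
  obtain ⟨q1, hq1, G, hG1, hG2, hG3⟩ := step1 M K1 K P k1 δ γ hM
    (le_trans (hpow 9 (by norm_num)) hMP) hδ (by
      have h2 : (M : ℝ) ^ 12 ≤ (M : ℝ) ^ 150 := pow_le_pow_right₀ hM1 (by norm_num)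
      exact le_trans (mul_le_mul_of_nonneg_left h2 hδ.le) hδM) hS
  obtain ⟨H, hH1, hH2⟩ := step2 M K k1 q1 (δ * (M : ℝ) ^ 18 / P) γ hM G (by
      intro k hk
      have := Finset.mem_Ioc.1 (hG1 hk)
      rw [Finset.mem_Icc]
      omega) hG2 hG3 (le_trans (hpow 32 (by norm_num)) hMK) (by positivity)
      (hdx 32 (by norm_num))
  obtain ⟨q2, hq2, q3, hq3, b, hb⟩ := step3 M K q1 (δ * (M : ℝ) ^ 18 / P) γ hM H hH1 hH2
    (le_trans (hpow 62 (by norm_num)) hMK) (by positivity) (hdx 126 (by norm_num))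
  rw [Finset.mem_Icc] at hq1 hq2 hq3
  have hq10 : (1 : ℝ) ≤ q1 := by exact_mod_cast hq1.1
  have hq20 : (1 : ℝ) ≤ q2 := by exact_mod_cast hq2.1
  have hq30 : (1 : ℝ) ≤ q3 := by exact_mod_cast hq3.1
  refine ⟨4 * q1 * q2 * q3, ?_, ?_, b, ?_⟩
  · have := Nat.mul_pos (Nat.mul_pos (Nat.mul_pos (by norm_num : 0 < 4) hq1.1) hq2.1) hq3.1
    exact this
  · calc 4 * q1 * q2 * q3 ≤ M ^ 2 * M ^ 9 * M ^ 32 * M ^ 62 := by
          have h4 : 4 ≤ M ^ 2 := by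
            calc 4 = 2 ^ 2 := by norm_num
              _ ≤ M ^ 2 := Nat.pow_le_pow_left hM 2
          exact Nat.mul_le_mul (Nat.mul_le_mul (Nat.mul_le_mul h4 hq1.2) hq2.2) hq3.2
      _ = M ^ 105 := by ring
      _ ≤ M ^ 150 := hpow 105 (by norm_num)
  · have e1 : γ - (b : ℝ) / ((4 * q1 * q2 * q3 : ℕ) : ℝ) =
        (4 * q1 * (q2 : ℕ) * γ - (b : ℝ) / (q3 : ℕ)) / (4 * q1 * q2) := by
      push_cast
      field_simp
    have hpos : (1 : ℝ) ≤ 4 * q1 * q2 := by nlinarith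
    rw [e1, abs_div, abs_of_pos (by linarith : (0 : ℝ) < 4 * q1 * q2)]
    refine le_trans (div_le_self (abs_nonneg _) hpos) (le_trans hb ?_)
    have e2 : 4 * (δ * (M : ℝ) ^ 18 / P) * (M : ℝ) ^ 126 / (K : ℝ) ^ 2 =
        (4 * (M : ℝ) ^ 144) * δ / (P * (K : ℝ) ^ 2) := by
      field_simp
    rw [e2]
    have h4 : 4 * (M : ℝ) ^ 144 ≤ (M : ℝ) ^ 150 := by
      have h5 : (4 : ℝ) ≤ (M : ℝ) ^ 6 := by
        calc (4 : ℝ) ≤ 2 ^ 6 := by norm_num
          _ ≤ (M : ℝ) ^ 6 := pow_le_pow_left₀ (by norm_num) hMR 6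
      calc 4 * (M : ℝ) ^ 144 ≤ (M : ℝ) ^ 6 * (M : ℝ) ^ 144 :=
            mul_le_mul_of_nonneg_right h5 (by positivity)
        _ = (M : ℝ) ^ 150 := by ring
    apply div_le_div_of_nonneg_right _ (by positivity)
    exact mul_le_mul_of_nonneg_right h4 hδ.le

end Pool.Agent.Y353.SQ4
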